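import Pool.Agent.helper1.UN.SpecU

/-!
# Row VG1: the Gamma integral in logarithmic coordinates
-/

set_option autoImplicit false

open NumberField Complex MeasureTheory NumberField.Units NumberField.Units.dirichletUnitTheorem

open scoped Classical

namespace Pool.Agent.UN

theorem VG1 : VG1_stmt := by
  intro c z hc hz
  have hc0 : (c : ℂ) ≠ 0 := by exact_mod_cast hc.ne'
  have h1 : ∫ t : ℝ, cexp (z * t) * ((Real.exp (-(c * Real.exp t)) : ℝ) : ℂ) = (c : ℂ) ^ (-z) * Complex.Gamma z := by
    have h2 := integral_image_eq_integral_abs_deriv_smul (s := Set.univ) (f := Real.exp) (f' := Real.exp)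
      MeasurableSet.univ (fun x _ => (Real.hasDerivAt_exp x).hasDerivWithinAt) (Real.exp_injective.injOn)
      (fun r : ℝ => (r : ℂ) ^ (z - 1) * cexp (-((c : ℂ) * (r : ℂ))))
    rw [Set.image_univ, Real.range_exp, setIntegral_univ,
      Complex.integral_cpow_mul_exp_neg_mul_Ioi hz (by simpa using hc)] at h2
    have h3 : (1 / (c : ℂ)) ^ z = (c : ℂ) ^ (-z) := by
      have harg : (c : ℂ).arg ≠ Real.pi := by
        rw [Complex.arg_ofReal_of_nonneg hc.le]
        exact Real.pi_pos.ne
      rw [one_div, Complex.inv_cpow _ _ harg, Complex.cpow_neg]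
    rw [← h3, h2]
    apply integral_congr_ae
    refine Filter.Eventually.of_forall (fun t => ?_)
    have h4 : (Real.exp t : ℂ) ≠ 0 := by exact_mod_cast (Real.exp_pos t).ne'
    simp only [abs_of_pos (Real.exp_pos t)]
    rw [Complex.real_smul, ← mul_assoc]
    have h5 : ((Real.exp t : ℝ) : ℂ) * ((Real.exp t : ℝ) : ℂ) ^ (z - 1) = cexp (z * t) := by
      have h6 : ((Real.exp t : ℝ) : ℂ) * ((Real.exp t : ℝ) : ℂ) ^ (z - 1) = ((Real.exp t : ℝ) : ℂ) ^ z := by
        rw [Complex.cpow_sub _ _ h4, Complex.cpow_one]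
        field_simp
      rw [h6, Complex.cpow_def_of_ne_zero h4, ← Complex.ofReal_log (Real.exp_pos t).le, Real.log_exp, mul_comm]
    rw [h5]
    congr 1
    push_cast
    ring_nf
  refine ⟨?_, h1⟩
  refine not_imp_comm.1 integral_undef ?_
  rw [h1]
  refine mul_ne_zero ?_ (Complex.Gamma_ne_zero_of_re_pos hz)
  intro h
  rw [Complex.cpow_eq_zero_iff] at h
  exact hc0 h.1

end Pool.Agent.UN
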