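import Pool.Agent.helper13.UN.SpecG

/-!
# Row NUC: the element `ν`
-/

set_option autoImplicit false

open NumberField Complex

namespace Pool.Agent.UN

theorem NUC : NUC_stmt := by
  intro K _ _ b f hb hbf
  refine ⟨?_, ?_⟩
  · by_cases hf : f = ⊤
    · obtain ⟨ν, hν, hν0⟩ := Submodule.exists_mem_ne_zero_of_ne_bot hb
      exact ⟨ν, hν, by rw [hf]; exact Submodule.mem_top, hν0⟩
    · have h1 : (1 : 𝓞 K) ∈ b ⊔ f := by
        rw [hbf]
        exact Submodule.mem_top
      obtain ⟨ν, hν, e, he, hνe⟩ := Submodule.mem_sup.1 h1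
      refine ⟨ν, hν, ?_, ?_⟩
      · have : ν - 1 = -e := by rw [← hνe]; ring
        rw [this]
        exact f.neg_mem he
      · rintro rfl
        apply hf
        rw [Ideal.eq_top_iff_one, ← hνe, zero_add]
        exact he
  · intro ν _ hν1 x hx
    have : x - ν * x = x * (-(ν - 1)) := by ring
    rw [this]
    exact Ideal.mul_mem_mul hx (f.neg_mem hν1)

end Pool.Agent.UN
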